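import Pool.Agent.Y199.SG.Pt
import Pool.Agent.Y199.ZF.Rat

/-!
# MP_b7926e_nt: no atypical intersections with torsion cosets for all but finitely many members of
families of subvarieties of tori over an elliptic curve

**The base.** Let `a, b` be algebraic numbers with `4 a³ + 27 b² ≠ 0` and let `Curve a b` be the set of
the affine points `P = (x, y)` of the elliptic curve `y² = x³ + a x + b`. At a point `Q` of it the
function `loc Q`, which is `x - x(Q)` if `y(Q) ≠ 0` and `y` if `y(Q) = 0`, is a local parameter, and a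
function `c ∈ ℂ[x, y]` has the order `e` at `Q` if `c = loc^e g / h` on the curve with functions
`g, h ∈ ℂ[x, y]` which do not vanish at `Q` (`HasOrder`). Every function which does not vanish
identically on the curve has an order at `Q`.

**Families.** Let `A_1, …, A_m ⊂ ℤ^n` be arbitrary finite nonempty sets of exponents and let
`c_jβ ∈ ℂ[x, y]`, `β ∈ A_j`. For `P ∈ Curve a b` let `X_P ⊂ (ℂ^×)^n` be the algebraic set
defined by the Laurent polynomials `f_j = ∑_β c_jβ(P) x^β`, `j ≤ m` (`member`). Every family of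
subvarieties of the torus over an open subset of the curve is of this form. So the `X_P` are the
fibres of a subvariety `X` of the semiabelian variety `E × G_m^n`.

**Tropicalization.** The tropicalization of the family at the point `Q` of the curve is the set
`Trop_Q` of the `w ∈ ℚ^n` such that for all `j` the minimum of the numbers
`ord_Q (c_jβ) + β · w`, `β ∈ A_j`, is attained at least twice.

**Theorem.** Let `Q_1, …, Q_M` be points of the curve with algebraic coordinates, such that no
linear subspace of `ℚ^n` of dimension less than `r` meets all the sets `Trop_{Q_l}`, let `Γ ⊂ ℂ` be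
a finite set and let `E` be a number field in `ℂ`. Then all but finitely many of the points `P` of
the elliptic curve over `E` have the following property: the set `X_P` has no atypical
intersection with the torsion cosets, and more generally with the cosets `η H` of all algebraic
subgroups `H` of the torus by all points `η` whose coordinates are units of the integral
closure of `ℤ[Γ]` in `ℂ`: every irreducible subset of `X_P ∩ η H` has dimension at most
`dim H - r`. In particular (`H` the torus) all components of `X_P` have dimension at most `n - r`,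
and for the components `V` of dimension `n - r` the union `Atyp(V)` of the problem is empty.

For `r = 1` the condition is that for some `l` and some `j` the least of the orders
`ord_{Q_l} (c_jβ)`, `β ∈ A_j`, is attained at only one exponent. For complete intersections, `m = r`,
the set `Trop_Q` has codimension `r` if the orders are generic, and then no linear subspace of
dimension less than `r` meets all the sets `Trop_{Q_l}` if their number is large in terms of `n` and `r`
(compare the lemma `general_position` of `MP_c95b3b_ag.TropicallyGenericFamilies`).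
The point at infinity is not admitted as a point `Q_l`; after a translation of the
elliptic curve this is no loss.

For a rational base the sister results `MP_c95b3b_ag.TropicallyGenericFamilies` and
`MP_c95b3b_ag.FinitelyGeneratedFields` have finitely many exceptional parameters in a number field if
the condition holds for all sets of `N` of the `M` points and `N + 2 ≤ M` (there can be infinitely
many parameters which are near to neither of two given points, as the powers of `2` for `0` and
`∞`), and `FewExceptionalParameters` has few, not finitely many, exceptional rational parameters.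
Over an elliptic curve the condition on all the points `Q_l` together, for example on one
point if `r = 1`, is sufficient for the finiteness.

The proof: if `P` is near to `Q_l` at a place with a large residue characteristic then there is a
valuation ring of `ℂ` in which `c_jβ(P)` has the value of `loc^e`, `e = ord_{Q_l} (c_jβ)`, and the
values of the coordinates of a point of `X_P ∩ η H` give a point of `Trop_{Q_l}` on the linear space
orthogonal to the group of the relations. If `P` is near to `Q_l` at no such place then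
the difference `P - Q_l` is an integral point of the elliptic curve over a ring of
`S`-integers which does not depend on `P`, and there are finitely many such points by Siegel's
theorem, which is proved here for all number fields (file `Y199/SG/Siegel`).
-/

set_option autoImplicit false

open Pool.Agent.Y199.ZF Pool.Agent.TH526.ZL Pool.Agent.Y199.DM

namespace Pool.Agent.Results.MP_b7926e_nt.EllipticBase

open Pool.Agent.Results.MP_b7926e_nt.NoAtypical (coset idealOf dim)

variable {n m : ℕ}

/-- The affine points of the elliptic curve `y² = x³ + a x + b`. -/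
def Curve (a b : ℂ) : Set (Fin 2 → ℂ) :=
  {P | P 1 ^ 2 = P 0 ^ 3 + a * P 0 + b}

/-- The local parameter at the point `Q` of the curve. -/
noncomputable def loc (Q P : Fin 2 → ℂ) : ℂ :=
  open Classical in if Q 1 = 0 then P 1 else P 0 - Q 0

/-- The function `c` has the order `e` at the point `Q` of the curve. -/
def HasOrder (a b : ℂ) (Q : Fin 2 → ℂ) (c : MvPolynomial (Fin 2) ℂ) (e : ℕ) : Prop :=
  ∃ g h : MvPolynomial (Fin 2) ℂ, MvPolynomial.eval Q g ≠ 0 ∧ MvPolynomial.eval Q h ≠ 0 ∧
    ∀ P ∈ Curve a b, MvPolynomial.eval P h * MvPolynomial.eval P c =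
      loc Q P ^ e * MvPolynomial.eval P g

/-- The member `X_P` of the family: the points of the torus at which all the Laurent polynomials
`∑_β c_jβ(P) x^β` vanish. -/
def member (A : Fin m → Finset (Fin n → ℤ)) (c : Fin m → (Fin n → ℤ) → MvPolynomial (Fin 2) ℂ)
    (P : Fin 2 → ℂ) : Set (Fin n → ℂ) :=
  {x | (∀ i, x i ≠ 0) ∧ ∀ j, ∑ β ∈ A j, MvPolynomial.eval P (c j β) * ∏ i, x i ^ β i = 0}

/-- The tropicalization of a system with the supports `A_j` and coefficients of the orders `e_jβ`: the
points `w` of `ℚ^n` such that for all `j` the minimum of `e_jβ + β · w` is attained at two different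
exponents `a, b ∈ A_j`. -/
def Trop (A : Fin m → Finset (Fin n → ℤ)) (e : Fin m → (Fin n → ℤ) → ℤ) : Set (Fin n → ℚ) :=
  {w | ∀ j, ∃ a ∈ A j, ∃ b ∈ A j, a ≠ b ∧
    (e j a : ℚ) + ∑ i, (a i : ℚ) * w i = (e j b : ℚ) + ∑ i, (b i : ℚ) * w i ∧
    ∀ β ∈ A j, (e j a : ℚ) + ∑ i, (a i : ℚ) * w i ≤ (e j β : ℚ) + ∑ i, (β i : ℚ) * w i}

/-- `z` is a unit of the integral closure in `ℂ` of the ring generated by `Γ`. -/
def IsUnitOver (Γ : Set ℂ) (z : ℂ) : Prop :=
  z ≠ 0 ∧ IsIntegral (Algebra.adjoin ℤ Γ) z ∧ IsIntegral (Algebra.adjoin ℤ Γ) z⁻¹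

/-- `X` has no atypical intersection with the cosets of algebraic subgroups by points whose
coordinates are units over `Γ`: every irreducible subset `B` of `X ∩ η H` has dimension at most
`dim H - r`. Here `η H = {y | y ^ a = η ^ a for all a in Λ}` and `dim H = n - rank Λ`. -/
def NoAtypical (r : ℕ) (Γ : Set ℂ) (X : Set (Fin n → ℂ)) : Prop :=
  ∀ (Λ : Submodule ℤ (Fin n → ℤ)) (η : Fin n → ℂ), (∀ i, IsUnitOver Γ (η i)) →
    ∀ B : Set (Fin n → ℂ), B ⊆ X → B ⊆ coset Λ η → (idealOf B).IsPrime →
      dim B + (r : Cardinal) + (Module.finrank ℤ Λ : Cardinal) ≤ (n : Cardinal)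

theorem val_eq_one {p : ℕ} [Fact p.Prime] (τ : ℂ →+* PadicAlgCl p) {x : ℂ} (hx : ‖τ x‖ = 1) :
    (ringOf τ).valuation x = 1 := by
  have h0 : x ≠ 0 := by
    rintro rfl
    rw [map_zero, norm_zero] at hx
    exact zero_ne_one hx
  refine le_antisymm ((ValuationSubring.valuation_le_one_iff _ _).2 ((mem_ringOf τ).2 hx.le)) ?_
  have h1 : (ringOf τ).valuation x⁻¹ ≤ 1 := by
    refine (ValuationSubring.valuation_le_one_iff _ _).2 ((mem_ringOf τ).2 ?_)
    rw [map_inv₀, norm_inv, hx, inv_one]
  rw [map_inv₀] at h1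
  have h2 : (ringOf τ).valuation x ≠ 0 := (Valuation.ne_zero_iff _).2 h0
  exact (inv_le_one₀ (zero_lt_iff.2 h2)).1 h1

/-- A function which does not vanish at `Q` is a unit at the points near to `Q`. -/
theorem norm_eq_one {p : ℕ} [Fact p.Prime] (τ : ℂ →+* PadicAlgCl p)
    (q : MvPolynomial (Fin 2) ℂ) (P Q : Fin 2 → ℂ) (hq : ∀ k, ‖τ (q.coeff k)‖ ≤ 1)
    (hQ : ∀ i, ‖τ (Q i)‖ ≤ 1) (hPQ : ∀ i, ‖τ (P i) - τ (Q i)‖ < 1)
    (h0 : MvPolynomial.eval Q q ≠ 0) (hinv : ‖τ (MvPolynomial.eval Q q)⁻¹‖ ≤ 1) :
    ‖τ (MvPolynomial.eval P q)‖ = 1 := by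
  have hP : ∀ i, ‖τ (P i)‖ ≤ 1 := by
    intro i
    have h1 : τ (P i) = (τ (P i) - τ (Q i)) + τ (Q i) := by ring
    rw [h1]
    exact (IsUltrametricDist.norm_add_le_max _ _).trans (max_le (hPQ i).le (hQ i))
  obtain ⟨h1, h2, h3⟩ := mv_near τ q q P Q hq hq
    (fun k => by rw [sub_self, norm_zero]; exact one_pos) hP hQ hPQ
  have h4 : ‖τ (MvPolynomial.eval Q q)‖ = 1 := by
    refine le_antisymm h2 ?_
    rw [map_inv₀, norm_inv] at hinv
    exact (inv_le_one₀ (norm_pos_iff.2 ((map_ne_zero τ).2 h0))).1 hinv
  refine le_antisymm h1 ?_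
  by_contra h5
  push Not at h5
  have h6 : ‖τ (MvPolynomial.eval Q q)‖ < 1 := by
    have h7 : τ (MvPolynomial.eval Q q) = τ (MvPolynomial.eval P q)
        - (τ (MvPolynomial.eval P q) - τ (MvPolynomial.eval Q q)) := by ring
    rw [h7, sub_eq_add_neg]
    refine lt_of_le_of_lt (IsUltrametricDist.norm_add_le_max _ _) (max_lt h5 ?_)
    rw [norm_neg]
    exact h3
  exact absurd h4 h6.ne

/-- **Families of subvarieties of tori over an elliptic curve**: all but finitely many of the members
over the points over a number field have no atypical intersection with torsion cosets. -/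
theorem result {M : ℕ} (r : ℕ) (hr : 1 ≤ r) (A : Fin m → Finset (Fin n → ℤ))
    (hA : ∀ j, (A j).Nonempty) (c : Fin m → (Fin n → ℤ) → MvPolynomial (Fin 2) ℂ) (a b : ℂ)
    (ha : IsAlgebraic ℚ a) (hb : IsAlgebraic ℚ b) (hab : 4 * a ^ 3 + 27 * b ^ 2 ≠ 0)
    (Q : Fin M → Fin 2 → ℂ) (hQ : ∀ l, Q l ∈ Curve a b) (hQa : ∀ l i, IsAlgebraic ℚ (Q l i))
    (e : Fin M → Fin m → (Fin n → ℤ) → ℕ)
    (he : ∀ l j, ∀ β ∈ A j, HasOrder a b (Q l) (c j β) (e l j β))
    (hgen : ∀ L : Submodule ℚ (Fin n → ℚ), Module.finrank ℚ L < r →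
      ∃ l, ∀ w ∈ L, w ∉ Trop A fun j β => (e l j β : ℤ))
    (Γ : Set ℂ) (hΓ : Γ.Finite) (E : IntermediateField ℚ ℂ) [FiniteDimensional ℚ E] :
    {P : Fin 2 → ℂ | P ∈ Curve a b ∧ (∀ i, P i ∈ E) ∧ ¬ NoAtypical r Γ (member A c P)}.Finite := by
  classical
  have he' : ∀ l j β, ∃ g h : MvPolynomial (Fin 2) ℂ, β ∈ A j →
      MvPolynomial.eval (Q l) g ≠ 0 ∧ MvPolynomial.eval (Q l) h ≠ 0 ∧
      ∀ P ∈ Curve a b, MvPolynomial.eval P h * MvPolynomial.eval P (c j β) =
        loc (Q l) P ^ (e l j β) * MvPolynomial.eval P g := by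
    intro l j β
    by_cases hβ : β ∈ A j
    · obtain ⟨g, h, h1⟩ := he l j β hβ
      exact ⟨g, h, fun _ => h1⟩
    · exact ⟨0, 0, fun h => absurd h hβ⟩
  choose g h hgh using he'
  -- the numbers which have to be integral
  let S : Fin M → Finset ℂ := fun l => hΓ.toFinset ∪ {Q l 0, Q l 1} ∪
    Finset.univ.biUnion fun j => (A j).biUnion fun β =>
      ((g l j β).support.image fun k => (g l j β).coeff k) ∪
      ((h l j β).support.image fun k => (h l j β).coeff k) ∪
      {(MvPolynomial.eval (Q l) (g l j β))⁻¹, (MvPolynomial.eval (Q l) (h l j β))⁻¹}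
  have hΓS : ∀ l, ∀ z ∈ Γ, z ∈ S l := by
    intro l z hz
    simp only [S, Finset.mem_union]
    exact Or.inl (Or.inl ((Set.Finite.mem_toFinset hΓ).2 hz))
  have hQS : ∀ l i, Q l i ∈ S l := by
    intro l i
    simp only [S, Finset.mem_union]
    refine Or.inl (Or.inr ?_)
    fin_cases i
    · exact Finset.mem_insert_self _ _
    · exact Finset.mem_insert_of_mem (Finset.mem_singleton_self _)
  have hcomb : ∀ l j β, β ∈ A j → ∀ z, z ∈ ((g l j β).support.image fun k => (g l j β).coeff k) ∪
      ((h l j β).support.image fun k => (h l j β).coeff k) ∪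
      {(MvPolynomial.eval (Q l) (g l j β))⁻¹, (MvPolynomial.eval (Q l) (h l j β))⁻¹} →
      z ∈ S l := by
    intro l j β hβ z hz
    simp only [S]
    refine Finset.mem_union_right _ (Finset.mem_biUnion.2 ⟨j, Finset.mem_univ _,
      Finset.mem_biUnion.2 ⟨β, hβ, hz⟩⟩)
  have hfin : ∀ l, {P : Fin 2 → ℂ | P ∈ Curve a b ∧ loc (Q l) P = 0}.Finite := by
    intro l
    by_cases h1 : Q l 1 = 0
    · refine (Pool.Agent.Y199.SG.zero_finite a b).subset ?_
      rintro P ⟨h2, h3⟩
      rw [loc, if_pos h1] at h3
      exact ⟨h2, h3⟩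
    · refine (Pool.Agent.Y199.SG.fibre_finite a b (Q l 0)).subset ?_
      rintro P ⟨h2, h3⟩
      rw [loc, if_neg h1] at h3
      exact ⟨h2, sub_eq_zero.1 h3⟩
  have hbad := Set.finite_iUnion fun l : Fin M =>
    ((Pool.Agent.Y199.SG.near_pt a b ha hb hab (Q l) (hQ l) (hQa l) E (S l)).union (hfin l))
  refine hbad.subset ?_
  rintro P ⟨hP, hPE, hcon⟩
  by_contra hnot
  simp only [Set.mem_iUnion, Set.mem_union, not_exists, not_or] at hnot
  apply hcon
  -- the places
  have hV : ∀ l, ∃ V : ValuationSubring ℂ, V.valuation (loc (Q l) P) < 1 ∧ (∀ z ∈ Γ, z ∈ V) ∧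
      ∀ j, ∀ β ∈ A j, V.valuation (MvPolynomial.eval P (c j β)) =
        V.valuation (loc (Q l) P) ^ (e l j β) := by
    intro l
    have h1 : ∃ (p : ℕ) (_ : Fact p.Prime) (τ : ℂ →+* PadicAlgCl p),
        (∀ y ∈ S l, ‖τ y‖ ≤ 1) ∧ ∀ i, ‖τ (P i) - τ (Q l i)‖ < 1 := by
      by_contra h2
      exact (hnot l).1 ⟨hP, hPE, fun q hq σ hσ => h2 ⟨q, hq, σ, hσ⟩⟩
    obtain ⟨p, hp, τ, hτ, hnear⟩ := h1
    refine ⟨ringOf τ, val_ringOf τ ?_, fun z hz => (mem_ringOf τ).2 (hτ z (hΓS l z hz)), ?_⟩
    · by_cases h2 : Q l 1 = 0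
      · rw [loc, if_pos h2]
        have h3 := hnear 1
        rw [h2, map_zero, sub_zero] at h3
        exact h3
      · rw [loc, if_neg h2, map_sub]
        exact hnear 0
    · intro j β hβ
      obtain ⟨hg0, hh0, heq⟩ := hgh l j β hβ
      have hmem := hcomb l j β hβ
      have hcoef : ∀ q : MvPolynomial (Fin 2) ℂ, (∀ k ∈ q.support, q.coeff k ∈ S l) →
          ∀ k, ‖τ (q.coeff k)‖ ≤ 1 := by
        intro q hq k
        by_cases h2 : k ∈ q.support
        · exact hτ _ (hq k h2)
        · rw [MvPolynomial.notMem_support_iff.1 h2, map_zero, norm_zero]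
          exact zero_le_one
      have hG := norm_eq_one τ (g l j β) P (Q l) (hcoef _ fun k hk => hmem _
        (Finset.mem_union_left _ (Finset.mem_union_left _ (Finset.mem_image_of_mem _ hk))))
        (fun i => hτ _ (hQS l i)) hnear hg0 (hτ _ (hmem _ (Finset.mem_union_right _
          (Finset.mem_insert_self _ _))))
      have hH := norm_eq_one τ (h l j β) P (Q l) (hcoef _ fun k hk => hmem _
        (Finset.mem_union_left _ (Finset.mem_union_right _ (Finset.mem_image_of_mem _ hk))))
        (fun i => hτ _ (hQS l i)) hnear hh0 (hτ _ (hmem _ (Finset.mem_union_right _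
          (Finset.mem_insert_of_mem (Finset.mem_singleton_self _)))))
      have h2 := congrArg (ringOf τ).valuation (heq P hP)
      rw [map_mul, map_mul, map_pow, val_eq_one τ hG, val_eq_one τ hH, one_mul, mul_one] at h2
      exact h2
  choose V hV1 hV2 hV3 using hV
  have hloc : ∀ l, loc (Q l) P ≠ 0 := fun l h0 => (hnot l).2 ⟨hP, h0⟩
  obtain ⟨l0, -⟩ := hgen ⊥ (by rw [finrank_bot]; omega)
  have hc0 : ∀ j, ∀ β ∈ A j, MvPolynomial.eval P (c j β) ≠ 0 := by
    intro j β hβ h0
    have h1 := hV3 l0 j β hβ
    rw [h0, map_zero] at h1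
    exact pow_ne_zero _ ((Valuation.ne_zero_iff _).2 (hloc l0)) h1.symm
  have hunit : ∀ l, ∀ z, IsUnitOver Γ z → (V l).valuation z = 1 := by
    intro l z ⟨hz0, h1, h2⟩
    have h3 : ∀ w : ℂ, IsIntegral (Algebra.adjoin ℤ Γ) w → (V l).valuation w ≤ 1 := by
      intro w hw
      have h4 : algebraMap ℂ ℂ '' Γ = Γ := Set.image_id _
      refine Pool.Agent.Y152.BD.v_le_of_int Γ (V l) (fun x hx => hV2 l x hx) ?_
      rw [h4]
      exact hw
    refine le_antisymm (h3 z h1) ?_
    have h5 := h3 _ h2
    rw [map_inv₀] at h5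
    have h6 : (V l).valuation z ≠ 0 := (Valuation.ne_zero_iff _).2 hz0
    exact (inv_le_one₀ (zero_lt_iff.2 h6)).1 h5
  intro Λ η hη B hBX hBT hB
  refine Pool.Agent.Y199.ZF.crit A hA (fun j β => MvPolynomial.eval P (c j β)) hc0 V
    (fun l => loc (Q l) P) hloc hV1 (fun l j β => (e l j β : ℤ)) (fun l j β hβ => ?_) ?_ Λ η
    (fun i => (hη i).1) (fun l i => hunit l _ (hη i)) B hBX hBT hB
  · change (V l).valuation (MvPolynomial.eval P (c j β)) = (V l).valuation (loc (Q l) P) ^ ((e l j β : ℕ) : ℤ)
    rw [hV3 l j β hβ, zpow_natCast]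
  · exact hgen

end Pool.Agent.Results.MP_b7926e_nt.EllipticBase
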