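import Pool.Agent.Y199.ZF.Rat

/-!
# MP_b7926e_nt: no atypical intersections with torsion cosets for almost all members of families of
subvarieties of tori

**Families.** Let `A_1, …, A_m ⊂ ℤ^n` be arbitrary finite nonempty sets of exponents and let
`c_jβ ∈ ℂ[t]` be nonzero polynomials, `β ∈ A_j`. For `t ∈ ℂ` let `X_t ⊂ (ℂ^×)^n` be the algebraic set
defined by the Laurent polynomials `f_j = ∑_β c_jβ(t) x^β`, `j ≤ m` (`member`). Every one-parameter
family of subvarieties of the torus is of this form.

**Tropicalization.** For `α ∈ ℂ` the tropicalization of the family at `t = α` is the set `Trop_α` of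
the `w ∈ ℚ^n` such that for all `j` the minimum of the numbers `ord_α (c_jβ) + β · w`, `β ∈ A_j`, is
attained at least twice.

**Theorem.** Let `α_1, …, α_M` be algebraic numbers, of arbitrary degrees, such that no linear
subspace of `ℚ^n` of dimension less than `r` meets all the sets `Trop_{α_l}`, and let `Γ ⊂ ℂ` be a
finite set. Then there are constants `C` and `s` such that for all `B ≥ 2` and `v ≤ B`, all but at most
`C (log B)^s` of the rational numbers `t` with denominator `v` and numerator at most `B` in absolute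
value have the following property: the set `X_t` has no atypical intersection with the torsion
cosets, and more generally with the cosets `η H` of all algebraic subgroups `H` of the torus by all
points `η` whose coordinates are units of the integral closure of `ℤ[Γ]` in `ℂ`: every
irreducible subset of `X_t ∩ η H` has dimension at most `dim H - r`. In particular (`H` the torus)
all components of `X_t` have dimension at most `n - r`, and for the components `V` of dimension
`n - r` the union `Atyp(V)` of the problem is empty.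

For `v = 1` the numbers `t` are the integers of absolute value at most `B`. The condition with `r = 1`
is that for some `l` and some `j` the least of the orders `ord_{α_l} (c_jβ)`, `β ∈ A_j`, is attained
at only one exponent. For larger `r` it says that the sets `Trop_{α_l}` are in general position with
respect to small subspaces. The sister result `MP_c95b3b_ag.TropicallyGenericFamilies` has finitely many
exceptional parameters, but supposes that no subspace of dimension less than `r` meets any `N`
among `N + 2` of the sets `Trop_{α_l}`, and that all `α_l` are rational.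

The proof: if the value at `t` of the minimal polynomial of `α_l` has a large prime factor then there
is a valuation ring of `ℂ` in which `t` is near to `α_l`, and the values of the coordinates of a
point of `X_t ∩ η H` give a point of `Trop_{α_l}` on the linear space orthogonal to the group of the
relations. For all but few `t` this holds for all `l`.
-/

set_option autoImplicit false

open Pool.Agent.Y199.ZF Pool.Agent.TH526.ZL

namespace Pool.Agent.Results.MP_b7926e_nt.FewExceptionalParameters

open Pool.Agent.Results.MP_b7926e_nt.NoAtypical (coset idealOf dim)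

variable {n m : ℕ}

/-- The member `X_t` of the family: the points of the torus at which all the Laurent polynomials
`∑_β c_jβ(t) x^β` vanish. -/
def member (A : Fin m → Finset (Fin n → ℤ)) (c : Fin m → (Fin n → ℤ) → Polynomial ℂ) (t : ℂ) :
    Set (Fin n → ℂ) :=
  {x | (∀ i, x i ≠ 0) ∧ ∀ j, ∑ β ∈ A j, (c j β).eval t * ∏ i, x i ^ β i = 0}

/-- The order at `α` of the coefficient `c_jβ`. -/
noncomputable def order (c : Fin m → (Fin n → ℤ) → Polynomial ℂ) (α : ℂ) (j : Fin m)
    (β : Fin n → ℤ) : ℤ :=
  ((c j β).rootMultiplicity α : ℤ)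

/-- The tropicalization of a system with the supports `A_j` and coefficients of the orders `e_jβ`: the
points `w` of `ℚ^n` such that for all `j` the minimum of `e_jβ + β · w` is attained at two different
exponents `a, b ∈ A_j`. -/
def Trop (A : Fin m → Finset (Fin n → ℤ)) (e : Fin m → (Fin n → ℤ) → ℤ) : Set (Fin n → ℚ) :=
  {w | ∀ j, ∃ a ∈ A j, ∃ b ∈ A j, a ≠ b ∧
    (e j a : ℚ) + ∑ i, (a i : ℚ) * w i = (e j b : ℚ) + ∑ i, (b i : ℚ) * w i ∧
    ∀ β ∈ A j, (e j a : ℚ) + ∑ i, (a i : ℚ) * w i ≤ (e j β : ℚ) + ∑ i, (β i : ℚ) * w i}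

/-- `z` is a unit of the integral closure in `ℂ` of the ring generated by `Γ`. -/
def IsUnitOver (Γ : Set ℂ) (z : ℂ) : Prop :=
  z ≠ 0 ∧ IsIntegral (Algebra.adjoin ℤ Γ) z ∧ IsIntegral (Algebra.adjoin ℤ Γ) z⁻¹

/-- `X` has no atypical intersection with the cosets of algebraic subgroups by points whose
coordinates are units over `Γ`: every irreducible subset `B` of `X ∩ η H` has dimension at most
`dim H - r`. Here `η H = {y | y ^ a = η ^ a for all a in Λ}` and `dim H = n - rank Λ`. -/
def NoAtypical (r : ℕ) (Γ : Set ℂ) (X : Set (Fin n → ℂ)) : Prop :=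
  ∀ (Λ : Submodule ℤ (Fin n → ℤ)) (η : Fin n → ℂ), (∀ i, IsUnitOver Γ (η i)) →
    ∀ B : Set (Fin n → ℂ), B ⊆ X → B ⊆ coset Λ η → (idealOf B).IsPrime →
      dim B + (r : Cardinal) + (Module.finrank ℤ Λ : Cardinal) ≤ (n : Cardinal)

/-- One-parameter families of subvarieties of the torus whose tropicalizations at some algebraic
parameters are in general position: all but few of the members with rational parameter have no
atypical intersection. -/
theorem result {M : ℕ} (r : ℕ) (A : Fin m → Finset (Fin n → ℤ)) (hA : ∀ j, (A j).Nonempty)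
    (c : Fin m → (Fin n → ℤ) → Polynomial ℂ) (hc : ∀ j, ∀ β ∈ A j, c j β ≠ 0)
    (α : Fin M → ℂ) (hα : ∀ l, IsAlgebraic ℚ (α l))
    (hgen : ∀ L : Submodule ℚ (Fin n → ℚ), Module.finrank ℚ L < r →
      ∃ l, ∀ w ∈ L, w ∉ Trop A (order c (α l)))
    (Γ : Set ℂ) (hΓ : Γ.Finite) :
    ∃ C s : ℕ, ∀ B v : ℕ, 2 ≤ B → v ≤ B → ∀ T : Finset ℚ,
      (∀ t ∈ T, t.den = v ∧ |t.num| ≤ B ∧ ¬ NoAtypical r Γ (member A c t)) →
      (T.card : ℝ) ≤ C * Real.log B ^ s := by
  classical
  obtain ⟨W, hW, hΓW, hnear⟩ := Pool.Agent.Y199.ZF.near (k := ℂ) A c hc α Γ hΓ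
  -- units over `Γ`
  have hunit : ∀ V : ValuationSubring ℂ, (∀ z ∈ W, z ∈ V) → ∀ z, IsUnitOver Γ z →
      V.valuation z = 1 := by
    intro V hV z ⟨hz0, h1, h2⟩
    have h3 : ∀ w : ℂ, IsIntegral (Algebra.adjoin ℤ Γ) w → V.valuation w ≤ 1 := by
      intro w hw
      have h4 : algebraMap ℂ ℂ '' Γ = Γ := Set.image_id _
      refine Pool.Agent.Y152.BD.v_le_of_int Γ V (fun x hx => hV x (hΓW hx)) ?_
      rw [h4]
      exact hw
    refine le_antisymm (h3 z h1) ?_
    have h5 := h3 _ h2
    rw [map_inv₀] at h5
    have h6 : V.valuation z ≠ 0 := (Valuation.ne_zero_iff _).2 hz0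
    exact (inv_le_one₀ (zero_lt_iff.2 h6)).1 h5
  -- the criterion
  have main : ∀ t : ℂ, (∀ l, t ≠ α l) →
      (∀ l, ∃ V : ValuationSubring ℂ, V.valuation (t - α l) < 1 ∧ ∀ z ∈ W, z ∈ V) →
      (∀ j, ∀ β ∈ A j, (c j β).eval t ≠ 0) → NoAtypical r Γ (member A c t) := by
    intro t htα hV hc0 Λ η hη B hBX hBT hB
    choose V hV1 hV2 using hV
    refine Pool.Agent.Y199.ZF.crit A hA (fun j β => (c j β).eval t) hc0 V
      (fun l => t - α l) (fun l => sub_ne_zero.2 (htα _)) hV1
      (fun l => order c (α l)) (fun l j β hβ => ?_) (fun L hL => ?_) Λ η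
      (fun i => (hη i).1) (fun l i => hunit (V l) (hV2 l) _ (hη i)) B hBX hBT hB
    · have h1 := hnear (V l) (hV2 l) l t (hV1 l) j β hβ
      rw [order, zpow_natCast]
      rw [Polynomial.coe_aeval_eq_eval] at h1
      exact h1
    · exact hgen L hL
  -- the exceptional parameters
  have hroots : {t : ℚ | ∃ j, ∃ β ∈ A j, (c j β).eval ((t : ℚ) : ℂ) = 0}.Finite := by
    have h1 : (⋃ j, ⋃ β ∈ A j, {t : ℂ | (c j β).eval t = 0}).Finite := by
      refine Set.finite_iUnion fun j => (A j).finite_toSet.biUnion fun β hβ => ?_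
      refine ((c j β).roots).toFinset.finite_toSet.subset fun t ht => ?_
      rw [Finset.mem_coe, Multiset.mem_toFinset, Polynomial.mem_roots (hc j β hβ)]
      exact ht
    refine (h1.preimage (f := fun t : ℚ => (t : ℂ)) Rat.cast_injective.injOn).subset ?_
    rintro t ⟨j, β, hβ, h⟩
    exact Set.mem_iUnion.2 ⟨j, Set.mem_biUnion hβ h⟩
  have hrange : {t : ℚ | ∃ l, ((t : ℚ) : ℂ) = α l}.Finite := by
    refine ((Set.finite_range α).preimage (f := fun t : ℚ => (t : ℂ))
      Rat.cast_injective.injOn).subset ?_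
    rintro t ⟨l, hl⟩
    exact ⟨l, hl.symm⟩
  have hfew : Few fun t => ∃ o : Option (Fin M), (Option.elim o
      (t ∈ {t : ℚ | ∃ j, ∃ β ∈ A j, (c j β).eval ((t : ℚ) : ℂ) = 0} ∪
        {t : ℚ | ∃ l, ((t : ℚ) : ℂ) = α l})
      (fun l => ¬ ∃ (p : ℕ) (_ : Fact p.Prime) (τ : ℂ →+* PadicAlgCl p),
        (∀ x ∈ hW.toFinset, ‖τ x‖ ≤ 1) ∧ ‖τ ((t : ℚ) : ℂ)‖ ≤ 1 ∧
          ‖τ (α l) - τ ((t : ℚ) : ℂ)‖ < 1)) := by
    refine Few.exists fun o => ?_
    rcases o with _ | l
    · exact few_finite (hroots.union hrange)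
    · exact few_far hW.toFinset (α l) (hα l)
  refine hfew.mono fun t ht => ?_
  by_contra hcon
  have hcon' := not_exists.1 hcon
  have hnone := not_or.1 (hcon' none)
  refine ht (main t (fun l h => hnone.2 ⟨l, h⟩) (fun l => ?_) fun j β hβ h =>
    hnone.1 ⟨j, β, hβ, h⟩)
  obtain ⟨p, hp, τ, hτ, -, hτα⟩ := not_not.1 (hcon' (some l))
  refine ⟨ringOf τ, val_ringOf τ ?_, fun z hz => ?_⟩
  · rw [map_sub, norm_sub_rev]
    exact hτα
  · exact (mem_ringOf τ).2 (hτ z ((Set.Finite.mem_toFinset hW).2 hz))

end Pool.Agent.Results.MP_b7926e_nt.FewExceptionalParameters
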