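import Pool.Agent.Y740.G.HeightMain

/-!
# Bounded height for the points of small dimension on varieties fibred over a rational curve

Let `p ≥ 1`.  Let `C` be the rational curve in the torus of dimension `p` with the coordinates
`z_j(s) = g_j ∏ (s - a_i) ^ ν_{j,i}`, where the `a_i` are distinct algebraic numbers, the `g_j`
nonzero algebraic numbers and the rows of the integer matrix `ν` linearly independent (so that `C`
does not lie in a translate of a proper subtorus).  Let `α_0, …, α_m` be nonzero polynomials over the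
field `Q̄` of algebraic numbers and `e_0, …, e_m` exponents in `ℕ ^ t` which do not lie in an affine
hyperplane.  Let `V` be the variety of dimension `t` of the points `(z(s), y)` of the torus of
dimension `p + t` with `∑ α_k(s) y ^ e_k = 0`, or its preimage under an isogeny `x ↦ x ^ E`.

For `p ≥ 2` and `t ≥ 2` every point of `V` lies on an anomalous subvariety (its fibre over `s`), so
that the set `V^oa` of the bounded height theorem is empty.  We show that the algebraic points of `V`
that lie in an algebraic subgroup of codimension at least `t + 1 = dim V + 1`, lie outside finitely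
many fibres over `s`, and at which no proper subsum of the equation vanishes, have bounded height, if
`C` is a line `z_j = s - a_j` in the torus of dimension three, or a line `z_j = g_j (s - a_j)` in the
torus of dimension three that is not in an explicit special position, or a curve (of any degree, in a
torus of any dimension) which is `Scattered`: in every complex embedding, two independent real
relations between the `log |z_j|` hold at finitely many points of each compact set.
-/

open Polynomial

namespace Pool.Agent.Results.MP_b7926e_nt.FibredBoundedHeight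

/-- `log |z_j|` for the coordinate `z_j = g_j ∏ (z - a_i) ^ ν_{j,i}`, in the complex embedding
`Ψ`. -/
noncomputable def lg {p r : ℕ} (ν : Fin p → Fin r → ℤ) (a : Fin r → AlgebraicClosure ℚ)
    (g : Fin p → AlgebraicClosure ℚ) (Ψ : AlgebraicClosure ℚ →+* ℂ) (z : ℂ) (j : Fin p) : ℝ :=
  Real.log ‖Ψ (g j) * ∏ i, (z - Ψ (a i)) ^ ν j i‖

/-- In every complex embedding, two independent real relations between the `log |z_j|` hold at
finitely many points of each compact set that contains none of the `a_i`. -/
def Scattered {p r : ℕ} (ν : Fin p → Fin r → ℤ) (a : Fin r → AlgebraicClosure ℚ)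
    (g : Fin p → AlgebraicClosure ℚ) : Prop :=
  ∀ (Ψ : AlgebraicClosure ℚ →+* ℂ) (c c' : Fin p → ℝ), LinearIndependent ℝ ![c, c'] →
    ∀ K : Set ℂ, IsCompact K → (∀ i, Ψ (a i) ∉ K) →
    {z : ℂ | z ∈ K ∧ ∑ j, c j * lg ν a g Ψ z j = 0 ∧ ∑ j, c' j * lg ν a g Ψ z j = 0}.Finite

/-- The base curve is scattered, or it is a line `z_j = g_j (s - a_{ι(j)})` in the torus of dimension
three such that all `g_j` are `1`, or such that in every complex embedding the circles `|z_i| = 1`
and `|z_j| = |z_k|` meet in finitely many points. -/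
def Admissible {p r : ℕ} (ν : Fin p → Fin r → ℤ) (a : Fin r → AlgebraicClosure ℚ)
    (g : Fin p → AlgebraicClosure ℚ) : Prop :=
  Scattered ν a g ∨ (p = 3 ∧ ∃ ι : Fin p → Fin r, (∀ j i, ν j i = if i = ι j then 1 else 0) ∧
    ((∀ j, g j = 1) ∨ ∀ (Ψ : AlgebraicClosure ℚ →+* ℂ) (i j k : Fin p),
      i ≠ j → i ≠ k → j ≠ k →
      {z : ℂ | ‖Ψ (g i) * (z - Ψ (a (ι i)))‖ = 1 ∧
        ‖Ψ (g j) * (z - Ψ (a (ι j)))‖ = ‖Ψ (g k) * (z - Ψ (a (ι k)))‖}.Finite))

theorem result (p r t m : ℕ) (hp : 0 < p)
    -- the base curve
    (ν : Fin p → Fin r → ℤ) (hν : LinearIndependent ℤ ν)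
    (a : Fin r → AlgebraicClosure ℚ) (ha : Function.Injective a)
    (g : Fin p → AlgebraicClosure ℚ) (hg : ∀ j, g j ≠ 0) (hC : Admissible ν a g)
    -- the fibres
    (α : Fin (m + 1) → (AlgebraicClosure ℚ)[X]) (hα : ∀ k, α k ≠ 0)
    (e : Fin (m + 1) → Fin t → ℕ)
    -- the exponents do not lie in an affine hyperplane
    (hspan : LinearIndependent ℤ (fun (i : Fin t) (k : Fin (m + 1)) =>
      (e k i : ℤ) - (e 0 i : ℤ)))
    -- an isogeny
    (E : Matrix (Fin p ⊕ Fin t) (Fin p ⊕ Fin t) ℤ) (hE : E.det ≠ 0) :
    ∃ (S : Set (AlgebraicClosure ℚ)) (B : ℝ), S.Finite ∧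
      ∀ (s : AlgebraicClosure ℚ) (x : Fin p ⊕ Fin t → AlgebraicClosure ℚ),
        -- `x` is a point of the torus of dimension `p + t`
        (∀ l, x l ≠ 0) →
        -- it lies on `V`
        (∀ j : Fin p, ∏ l, x l ^ E (Sum.inl j) l = g j * ∏ i, (s - a i) ^ ν j i) →
        ∑ k, (α k).eval s * ∏ i, (∏ l, x l ^ E (Sum.inr i) l) ^ e k i = 0 →
        -- no proper subsum vanishes
        (∀ I : Finset (Fin (m + 1)), 2 ≤ I.card → I.card < m →
          ∑ k ∈ I, (α k).eval s * ∏ i, (∏ l, x l ^ E (Sum.inr i) l) ^ e k i ≠ 0) →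
        -- its coordinates satisfy `t + 1` independent multiplicative relations
        (∃ u : Fin (t + 1) → (Fin p ⊕ Fin t) → ℤ, LinearIndependent ℤ u ∧
          ∀ k, ∏ l, x l ^ u k l = 1) →
        s ∈ S ∨ ∀ l, NumberField.absLogHeight₁ (x l) ≤ B :=
  Pool.Agent.Y740.G.heightC p r t m hp ν hν a ha g hg
    (Pool.Agent.Y740.G.Admissible.scattered hν ha hg hC) α hα e hspan E hE

end Pool.Agent.Results.MP_b7926e_nt.FibredBoundedHeight
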