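import Pool.Agent.Y740.Z.Main

/-!
# Zilber's conjecture for surfaces of the torus of dimension five fibred over a rational curve

Let `C` be the rational curve in the torus of dimension three with the coordinates
`z_j(s) = g_j ∏ (s - a_i) ^ ν_{j,i}`, where the `a_i` are distinct algebraic numbers, the `g_j`
nonzero algebraic numbers and the rows of the integer matrix `ν` linearly independent (so that `C`
does not lie in a translate of a proper subtorus).  Let `f(s, y) = ∑ α_k(s) y ^ e_k` be a polynomial
over the field `Q̄` of algebraic numbers in `s` and `y = (y_0, y_1)` with exponents that do not lie on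
a line, which is irreducible in `y` for all but finitely many `s ∈ Q̄`.  Let `V` be the surface of the
points `(z(s), y)` of the torus of dimension five with `f(s, y) = 0`, or its preimage under an isogeny
`x ↦ x ^ E`.  Every point of `V` lies on an anomalous curve (its fibre over `s`), so that `V^oa` is
empty.

We show that there are finitely many nonzero integer vectors `u` such that every point of `V` (over
any extension field of `Q̄`) that satisfies three independent multiplicative relations satisfies one
of the relations `x ^ u = 1`, if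

* `C` is a line `z_j = s - a_j`, or a line `z_j = g_j (s - a_j)` that is not in an explicit special
  position, or a curve (of any degree) which is `Scattered`: in every complex embedding, two
  independent real relations between the `log |z_j|` hold at finitely many points of each compact
  set; and
* the set of the exponents is not centrally symmetric, or `FewReflexive` holds.

So the atypical points of `V` lie in finitely many proper algebraic subgroups.  The same subgroups
contain all atypical curves (a curve in `V` and in an algebraic subgroup of codimension two contains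
infinitely many points of algebraic subgroups of codimension three).

Parts of the proof are due to helpers 44, 51, 100, 261, 274, 394, 427, 447, 500, 657, 686, 708, 824.
-/

open Polynomial

namespace Pool.Agent.Results.MP_b7926e_nt.FibredSurfaces

/-- `log |z_j|` for the coordinate `z_j = g_j ∏ (z - a_i) ^ ν_{j,i}`, in the complex embedding
`Ψ`. -/
noncomputable def lg {p r : ℕ} (ν : Fin p → Fin r → ℤ) (a : Fin r → AlgebraicClosure ℚ)
    (g : Fin p → AlgebraicClosure ℚ) (Ψ : AlgebraicClosure ℚ →+* ℂ) (z : ℂ) (j : Fin p) : ℝ :=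
  Real.log ‖Ψ (g j) * ∏ i, (z - Ψ (a i)) ^ ν j i‖

/-- In every complex embedding, two independent real relations between the `log |z_j|` hold at
finitely many points of each compact set that contains none of the `a_i`. -/
def Scattered {p r : ℕ} (ν : Fin p → Fin r → ℤ) (a : Fin r → AlgebraicClosure ℚ)
    (g : Fin p → AlgebraicClosure ℚ) : Prop :=
  ∀ (Ψ : AlgebraicClosure ℚ →+* ℂ) (c c' : Fin p → ℝ), LinearIndependent ℝ ![c, c'] →
    ∀ K : Set ℂ, IsCompact K → (∀ i, Ψ (a i) ∉ K) →
    {z : ℂ | z ∈ K ∧ ∑ j, c j * lg ν a g Ψ z j = 0 ∧ ∑ j, c' j * lg ν a g Ψ z j = 0}.Finite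

/-- The base curve is scattered, or it is a line `z_j = g_j (s - a_{ι(j)})` in the torus of dimension
three such that all `g_j` are `1`, or such that in every complex embedding the circles `|z_i| = 1`
and `|z_j| = |z_k|` meet in finitely many points. -/
def Admissible {p r : ℕ} (ν : Fin p → Fin r → ℤ) (a : Fin r → AlgebraicClosure ℚ)
    (g : Fin p → AlgebraicClosure ℚ) : Prop :=
  Scattered ν a g ∨ (p = 3 ∧ ∃ ι : Fin p → Fin r, (∀ j i, ν j i = if i = ι j then 1 else 0) ∧
    ((∀ j, g j = 1) ∨ ∀ (Ψ : AlgebraicClosure ℚ →+* ℂ) (i j k : Fin p),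
      i ≠ j → i ≠ k → j ≠ k →
      {z : ℂ | ‖Ψ (g i) * (z - Ψ (a (ι i)))‖ = 1 ∧
        ‖Ψ (g j) * (z - Ψ (a (ι j)))‖ = ‖Ψ (g k) * (z - Ψ (a (ι k)))‖}.Finite))

/-- The zero set of `∑ β_k y ^ e_k` in the complex torus is mapped to itself by the reflection
`y_i ↦ ρ_i / conj (y_i)`. -/
def Reflexive {m n : ℕ} (β : Fin n → ℂ) (e : Fin n → Fin m → ℕ) (ρ : Fin m → ℝ) : Prop :=
  ∀ y : Fin m → ℂ, (∀ i, y i ≠ 0) → ∑ k, β k * ∏ i, y i ^ e k i = 0 →
    ∑ k, β k * ∏ i, ((ρ i : ℂ) / (starRingEnd ℂ) (y i)) ^ e k i = 0

/-- In every complex embedding, each compact set that contains none of the `a_i` contains finitely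
many points `z` of the level curve `∑ b_j log |z_j| = 0` (`b ≠ 0`) whose fibre is mapped to itself by
the reflection with the radii `ρ_i = exp (2 ∑ M_{i,j} log |z_j|)`. -/
def FewReflexive {p r n m : ℕ} (ν : Fin p → Fin r → ℤ) (a : Fin r → AlgebraicClosure ℚ)
    (g : Fin p → AlgebraicClosure ℚ) (α : Fin n → (AlgebraicClosure ℚ)[X])
    (e : Fin n → Fin m → ℕ) : Prop :=
  ∀ (Ψ : AlgebraicClosure ℚ →+* ℂ) (b : Fin p → ℝ) (M : Fin m → Fin p → ℝ), b ≠ 0 →
    ∀ K : Set ℂ, IsCompact K → (∀ i, Ψ (a i) ∉ K) →
    {z : ℂ | z ∈ K ∧ ∑ j, b j * lg ν a g Ψ z j = 0 ∧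
      Reflexive (fun k => ((α k).map Ψ).eval z) e
        (fun i => Real.exp (2 * ∑ j, M i j * lg ν a g Ψ z j))}.Finite

theorem result (r n : ℕ)
    -- the base curve
    (ν : Fin 3 → Fin r → ℤ) (hν : LinearIndependent ℤ ν)
    (a : Fin r → AlgebraicClosure ℚ) (ha : Function.Injective a)
    (g : Fin 3 → AlgebraicClosure ℚ) (hg : ∀ j, g j ≠ 0) (hC : Admissible ν a g)
    -- the fibres
    (α : Fin (n + 1) → (AlgebraicClosure ℚ)[X]) (hα : ∀ k, α k ≠ 0)
    (e : Fin (n + 1) → Fin 2 → ℕ) (he : Function.Injective e)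
    -- the exponents do not lie on a line
    (hspan : LinearIndependent ℤ (fun (i : Fin 2) (k : Fin (n + 1)) =>
      (e k i : ℤ) - (e 0 i : ℤ)))
    -- for all but finitely many values of `s` the polynomial `f(s, y)` is irreducible
    (hirr : {s : AlgebraicClosure ℚ | ¬ Irreducible
      (∑ k, MvPolynomial.monomial (Finsupp.equivFunOnFinite.symm (e k)) ((α k).eval s) :
        MvPolynomial (Fin 2) (AlgebraicClosure ℚ))}.Finite)
    -- the exponents are not centrally symmetric, or few fibres are reflexive
    (hR : (¬ ∃ v : Fin 2 → ℕ, ∀ k, ∃ l, e k + e l = v) ∨ FewReflexive ν a g α e)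
    -- an isogeny
    (E : Matrix (Fin 3 ⊕ Fin 2) (Fin 3 ⊕ Fin 2) ℤ) (hE : E.det ≠ 0) :
    ∃ U : Finset (Fin 3 ⊕ Fin 2 → ℤ), (∀ u ∈ U, u ≠ 0) ∧
      ∀ (L : Type) [Field L] [Algebra (AlgebraicClosure ℚ) L] (s : L)
        (x : Fin 3 ⊕ Fin 2 → L) (y : Fin 2 → L),
        -- `x` is a point of the torus of dimension five
        (∀ k, x k ≠ 0) →
        -- it lies on `V`
        (∀ j : Fin 3, ∏ l, x l ^ E (Sum.inl j) l =
          algebraMap (AlgebraicClosure ℚ) L (g j) *
            ∏ i, (s - algebraMap (AlgebraicClosure ℚ) L (a i)) ^ ν j i) →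
        (∀ i, ∏ l, x l ^ E (Sum.inr i) l = y i) →
        ∑ k, aeval s (α k) * ∏ i, y i ^ e k i = 0 →
        -- its coordinates satisfy three independent multiplicative relations
        (∃ u : Fin 3 → (Fin 3 ⊕ Fin 2) → ℤ, LinearIndependent ℤ u ∧
          ∀ k, ∏ l, x l ^ u k l = 1) →
        ∃ u ∈ U, ∏ l, x l ^ u l = 1 :=
  Pool.Agent.Y740.Z.surfE r n ν hν a ha g hg
    (Pool.Agent.Y740.G.Admissible.scattered hν ha hg hC) α hα e he hspan hirr hR E hE

end Pool.Agent.Results.MP_b7926e_nt.FibredSurfaces
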